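import Pool.Agent.P.MP_8db816_gt.Marks
import Pool.Agent.P.MP_8db816_gt.KTheory

/-! The index map for proper actions cannot be an isomorphism both for the trivial group and for
`(ℤ/3)²` in degree `0`. A point is a model of the universal proper space of a finite group. -/

namespace Pool.Agent.Results.MP_8db816_gt.NotIso

open Pool.Agent.P.MP_8db816_gt

theorem result (𝔅 : Factor)
    (Θ₁ : Stolz Unit Unit 𝔅 0 →+ K0 (redAlg Unit))
    (Θ₂ : Stolz (Multiplicative (ZMod 3 × ZMod 3)) Unit 𝔅 0 →+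
      K0 (redAlg (Multiplicative (ZMod 3 × ZMod 3)))) :
    ¬ (Function.Surjective Θ₁ ∧ Function.Injective Θ₂) := by
  rintro ⟨h₁, h₂⟩
  obtain ⟨r, y, hy⟩ := K0_triv
  obtain ⟨x, rfl⟩ := h₁ y
  obtain ⟨k, c, hc⟩ := exists_cls 𝔅 (r.comp Θ₁) hy
  have h := (indep_ind (G := Multiplicative (ZMod 3 × ZMod 3)) 𝔅 (r.comp Θ₁) c hc).comp _
    six_subgroups
  exact K0_rank _ (h.map' Θ₂.toIntLinearMap (LinearMap.ker_eq_bot.2 h₂))

end Pool.Agent.Results.MP_8db816_gt.NotIso
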